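import Mathlib

/-!
The size conditions on the window of the rough numbers.
-/

set_option autoImplicit false

namespace Pool.Agent.W5h75.ST

theorem cond (θ κ σ W bo P : ℝ) (hκ : κ = 1 - θ + 2 * σ) (hσ : 0 < σ) (hκ2 : κ ≤ θ - σ)
    (hW : 1 ≤ W) (hbo : 0 ≤ bo) (hP : 1 ≤ P) :
    ∀ᶠ x : ℝ in Filter.atTop, ∀ (M ZV B Z YC N : ℝ), x ^ κ / 2 ≤ M → M ≤ x ^ κ → 0 ≤ ZV →
      ZV ≤ 2 * x ^ (3 / 2 * σ) → ZV ≤ M → 0 ≤ B → B ≤ x ^ (θ - κ - σ) →
      x ^ (θ - κ - σ) < B + 1 → 0 ≤ YC → YC ≤ x ^ (σ / 2) → x ^ θ / 2 ≤ Z → 0 ≤ N →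
      N ≤ x ^ (θ - 8 * σ) →
      x * ZV / (3 * M) + (bo + YC * (2 * B + 1)) * ((6 * M + ZV) * W) ≤ Z ∧
      P * (N * ZV) < M * (B + 1) := by
  have m2 : ∀ᶠ x : ℝ in Filter.atTop, 14 * (W * (bo + 3)) + 4 + 8 * P ≤ x ^ (σ / 2) :=
    (tendsto_rpow_atTop (by linarith)).eventually_ge_atTop _
  filter_upwards [m2, Filter.eventually_ge_atTop (1 : ℝ)] with x h2 hx1
  intro M ZV B Z YC N hM3 hM1 hZV0 hZV3 hZV4 hB0 hB1 hB2 hYC0 hYC hZ2 hN0 hN
  have hx0 : 0 < x := by linarith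
  have hxp : ∀ u : ℝ, 0 < x ^ u := fun u => Real.rpow_pos_of_pos hx0 u
  have hxm : ∀ u v : ℝ, u ≤ v → x ^ u ≤ x ^ v := fun u v h =>
    Real.rpow_le_rpow_of_exponent_le hx1 h
  have hxa : ∀ u v : ℝ, x ^ u * x ^ v = x ^ (u + v) := fun u v => (Real.rpow_add hx0 u v).symm
  have hM0 : 0 < M := by have := hxp κ; linarith
  have hexp : 0 ≤ θ - κ - σ := by linarith
  have hB3 : 1 ≤ x ^ (θ - κ - σ) := Real.one_le_rpow hx1 hexp
  have hxσ : 1 ≤ x ^ (σ / 2) := Real.one_le_rpow hx1 (by linarith)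
  have hWb : 0 ≤ W * (bo + 3) := by positivity
  constructor
  · have g1 : x * ZV / (3 * M) ≤ 2 * x ^ (θ - σ / 2) := by
      rw [div_le_iff₀ (by positivity)]
      have k1 : x * ZV ≤ x * (2 * x ^ (3 / 2 * σ)) := mul_le_mul_of_nonneg_left hZV3 hx0.le
      have k2 : x * (2 * x ^ (3 / 2 * σ)) = 2 * (x ^ (θ - σ / 2) * x ^ κ) := by
        have : x * (2 * x ^ (3 / 2 * σ)) = 2 * (x ^ (1 : ℝ) * x ^ (3 / 2 * σ)) := by
          rw [Real.rpow_one]; ring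
        rw [this, hxa, hxa]
        congr 2
        rw [hκ]; ring
      have k3 : x ^ (θ - σ / 2) * x ^ κ ≤ x ^ (θ - σ / 2) * (3 * M) :=
        mul_le_mul_of_nonneg_left (by linarith) (hxp _).le
      linarith
    have g2 : bo + YC * (2 * B + 1) ≤ (bo + 3) * x ^ (θ - κ - σ / 2) := by
      have k1 : (2 * B + 1) ≤ 3 * x ^ (θ - κ - σ) := by linarith
      have k2 : YC * (2 * B + 1) ≤ x ^ (σ / 2) * (3 * x ^ (θ - κ - σ)) :=
        mul_le_mul hYC k1 (by positivity) (hxp _).le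
      have k3 : x ^ (σ / 2) * (3 * x ^ (θ - κ - σ)) = 3 * x ^ (θ - κ - σ / 2) := by
        have : x ^ (σ / 2) * (3 * x ^ (θ - κ - σ)) = 3 * (x ^ (σ / 2) * x ^ (θ - κ - σ)) := by
          ring
        rw [this, hxa]
        congr 2
        ring
      have k4 : 1 ≤ x ^ (θ - κ - σ / 2) := Real.one_le_rpow hx1 (by linarith)
      have k5 : bo ≤ bo * x ^ (θ - κ - σ / 2) := le_mul_of_one_le_right hbo k4
      linarith
    have g3 : (6 * M + ZV) * W ≤ 7 * W * x ^ κ := by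
      have : (6 * M + ZV) * W ≤ (7 * x ^ κ) * W :=
        mul_le_mul_of_nonneg_right (by linarith) (by linarith)
      linarith
    have g4 : (bo + YC * (2 * B + 1)) * ((6 * M + ZV) * W) ≤
        ((bo + 3) * x ^ (θ - κ - σ / 2)) * (7 * W * x ^ κ) :=
      mul_le_mul g2 g3 (by positivity) (by have := hxp (θ - κ - σ / 2); positivity)
    have g5 : ((bo + 3) * x ^ (θ - κ - σ / 2)) * (7 * W * x ^ κ) =
        (7 * (W * (bo + 3))) * x ^ (θ - σ / 2) := by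
      have : ((bo + 3) * x ^ (θ - κ - σ / 2)) * (7 * W * x ^ κ) =
        (7 * (W * (bo + 3))) * (x ^ (θ - κ - σ / 2) * x ^ κ) := by ring
      rw [this, hxa]
      congr 2
      ring
    have g6 : (2 + 7 * (W * (bo + 3))) * x ^ (θ - σ / 2) ≤
        (x ^ (σ / 2) / 2) * x ^ (θ - σ / 2) :=
      mul_le_mul_of_nonneg_right (by linarith) (hxp _).le
    have g7 : (x ^ (σ / 2) / 2) * x ^ (θ - σ / 2) = x ^ θ / 2 := by
      rw [div_mul_eq_mul_div, hxa]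
      congr 2
      ring
    linarith
  · have g1 : P * (N * ZV) ≤ P * (x ^ (θ - 8 * σ) * (2 * x ^ (3 / 2 * σ))) :=
      mul_le_mul_of_nonneg_left (mul_le_mul hN hZV3 hZV0 (hxp _).le) (by linarith)
    have g2 : P * (x ^ (θ - 8 * σ) * (2 * x ^ (3 / 2 * σ))) = 2 * P * x ^ (θ - 13 / 2 * σ) := by
      have : P * (x ^ (θ - 8 * σ) * (2 * x ^ (3 / 2 * σ))) =
        2 * P * (x ^ (θ - 8 * σ) * x ^ (3 / 2 * σ)) := by ring
      rw [this, hxa]
      congr 2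
      ring
    have g3 : 2 * P * x ^ (θ - 13 / 2 * σ) < x ^ (σ / 2) / 2 * x ^ (θ - 13 / 2 * σ) :=
      mul_lt_mul_of_pos_right (by linarith) (hxp _)
    have g4 : x ^ (σ / 2) / 2 * x ^ (θ - 13 / 2 * σ) ≤ x ^ (θ - σ) / 2 := by
      rw [div_mul_eq_mul_div, hxa]
      have := hxm (σ / 2 + (θ - 13 / 2 * σ)) (θ - σ) (by linarith)
      linarith
    have g5 : x ^ (θ - σ) / 2 ≤ M * (B + 1) := by
      have k1 : x ^ (θ - σ) = x ^ κ * x ^ (θ - κ - σ) := by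
        rw [hxa]; congr 1; ring
      have k2 : (x ^ κ / 2) * x ^ (θ - κ - σ) ≤ M * (B + 1) :=
        mul_le_mul hM3 hB2.le (hxp _).le hM0.le
      rw [k1]
      linarith
    linarith

end Pool.Agent.W5h75.ST
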