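import Mathlib
import Pool.Agent.W5h75.SR.Link1

/-!
Comparison of two rough numbers with few exceptional multiples each.
-/

set_option autoImplicit false

open Finset

namespace Pool.Agent.W5h75.ST

open Pool.Agent.H661R3.OP
open Pool.Agent.W5h75.SP (SVK rough_mul rough_ne_zero)
open Pool.Agent.W5h75.SR (Ex ex_finite rough_of_mul)

theorem card_divisors_le (n : ℕ) (hn : n ≠ 0) :
    n.divisors.card ≤ 2 ^ ArithmeticFunction.cardFactors n := by
  induction n using Nat.recOnMul with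
  | zero => exact absurd rfl hn
  | one => simp
  | prime p hp =>
    rw [ArithmeticFunction.cardFactors_apply_prime hp, hp.divisors, pow_one]
    exact card_le_two
  | mul a b iha ihb =>
    have ha : a ≠ 0 := left_ne_zero_of_mul hn
    have hb : b ≠ 0 := right_ne_zero_of_mul hn
    rw [ArithmeticFunction.cardFactors_mul ha hb, pow_add, Nat.divisors_mul]
    exact (Finset.card_mul_le).trans (Nat.mul_le_mul (iha ha) (ihb hb))

/-- the multiples of `V` parametrised by `t` -/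
def nn {ι : Type} (a b : ι → ℤ) (o : ι) (W : ℕ) (n₀ : ℤ) (v t : ℤ) : ℤ :=
  n₀ + W * v * (a o * n₀ + b o) + (1 + a o * W * v) * W * t

theorem nn_eq {ι : Type} (a b : ι → ℤ) (o : ι) (W : ℕ) (n₀ : ℤ) (v t : ℤ) :
    a o * nn a b o W n₀ v t + b o = (1 + a o * W * v) * ((a o * n₀ + b o) + a o * W * t) := by
  unfold nn
  ring

theorem nn_class {ι : Type} (a b : ι → ℤ) (o : ι) (W : ℕ) (n₀ : ℤ) (v t : ℤ) :
    (W : ℤ) ∣ nn a b o W n₀ v t - n₀ :=
  ⟨v * (a o * n₀ + b o) + (1 + a o * W * v) * t, by unfold nn; ring⟩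

theorem link {ι : Type} [Fintype ι] (a b : ι → ℤ) (o : ι) (W : ℕ) (n₀ : ℤ) (K C : ℕ)
    (hSV : SVK K C) (hK : 2 * Fintype.card ι ≤ K) (hW : 0 < W)
    (hWp : ∀ p : ℕ, p.Prime → p ≤ 2 * K → p ∣ W)
    (hWa : ∀ i, ∀ p : ℕ, p.Prime → (p : ℤ) ∣ a i → p ∣ W) (Y : ℕ) (hY : 2 ≤ Y)
    (hao : 0 < a o)
    (hn₀ : ∀ i, ∀ p : ℕ, p.Prime → p ∣ W → ¬ (p : ℤ) ∣ a i * n₀ + b i)
    (F : ℤ → ZMod 2) (hF : Add2 F) (Z : ℤ) (E : ℕ) (x : ℝ) (hx : 0 ≤ x) (c : ZMod 2)
    (v v' : ℤ) (hV : 0 < 1 + a o * W * v) (hV' : 0 < 1 + a o * W * v')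
    (hrV : Rough Y (1 + a o * W * v)) (hrV' : Rough Y (1 + a o * W * v'))
    (hb1 : {t : ℤ | nn a b o W n₀ v t ∈ Ex a b o F W n₀ Y Z x c}.ncard ≤ E)
    (hb2 : {t : ℤ | nn a b o W n₀ v' t ∈ Ex a b o F W n₀ Y Z x c}.ncard ≤ E)
    (lo hi D : ℝ) (hlo : 0 < lo) (hl1 : lo ≤ ((1 + a o * W * v : ℤ) : ℝ))
    (hl2 : lo ≤ ((1 + a o * W * v' : ℤ) : ℝ)) (hh1 : ((1 + a o * W * v : ℤ) : ℝ) ≤ hi)
    (hh2 : ((1 + a o * W * v' : ℤ) : ℝ) ≤ hi)
    (hD : |((1 + a o * W * v' : ℤ) : ℝ) - ((1 + a o * W * v : ℤ) : ℝ)| ≤ D)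
    (hZ : x * D / lo + (|(b o : ℝ)| + (Y : ℝ) ^ C * (2 * E + 1)) * (hi * W) ≤ Z) :
    F (1 + a o * W * v) = F (1 + a o * W * v') := by
  classical
  set μ : ℤ := a o * n₀ + b o with hμ
  set V : ℤ := 1 + a o * W * v with hVd
  set V' : ℤ := 1 + a o * W * v' with hVd'
  have hWr : (1 : ℝ) ≤ W := by exact_mod_cast hW
  have hVr : (1 : ℝ) ≤ V := by exact_mod_cast hV
  have hVr' : (1 : ℝ) ≤ V' := by exact_mod_cast hV'
  have har : (1 : ℝ) ≤ a o := by exact_mod_cast hao
  have hVW : (0 : ℝ) < V * W := by positivity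
  have hVW' : (0 : ℝ) < V' * W := by positivity
  have hD0 : 0 ≤ D := (abs_nonneg _).trans hD
  set τ₁ : ℝ := (x - n₀ - W * v * μ) / (V * W) with hτ₁
  set τ₂ : ℝ := (x - n₀ - W * v' * μ) / (V' * W) with hτ₂
  have hvr : (V : ℝ) = 1 + a o * W * v := by rw [hVd]; push_cast; ring
  have hvr' : (V' : ℝ) = 1 + a o * W * v' := by rw [hVd']; push_cast; ring
  have hdiff : τ₁ - τ₂ = (x / (V * W) - x / (V' * W)) +
      (1 / (V : ℝ) - 1 / V') * ((b o : ℝ) / (a o * W)) := by
    have e0 : (0 : ℝ) < a o * W := by positivity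
    have e1 : (v : ℝ) / V = (1 - 1 / V) / (a o * W) := by
      rw [div_eq_div_iff (by positivity) (by positivity)]
      have : (V : ℝ) * (1 / V) = 1 := by field_simp
      have : (1 - 1 / (V : ℝ)) * V = V - 1 := by linarith
      rw [this, hvr]; ring
    have e2 : (v' : ℝ) / V' = (1 - 1 / V') / (a o * W) := by
      rw [div_eq_div_iff (by positivity) (by positivity)]
      have : (V' : ℝ) * (1 / V') = 1 := by field_simp
      have : (1 - 1 / (V' : ℝ)) * V' = V' - 1 := by linarith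
      rw [this, hvr']; ring
    have e3 : τ₁ = x / (V * W) - n₀ / W * (1 / V) - μ * (v / V) := by
      rw [hτ₁]; field_simp
    have e4 : τ₂ = x / (V' * W) - n₀ / W * (1 / V') - μ * (v' / V') := by
      rw [hτ₂]; field_simp
    rw [e3, e4, e1, e2, hμ]
    push_cast
    field_simp
    ring
  have hs : |τ₁ - τ₂| ≤ |x / (V * W) - x / (V' * W)| + |(b o : ℝ)| := by
    rw [hdiff]
    refine (abs_add_le _ _).trans ?_
    refine add_le_add le_rfl ?_
    rw [abs_mul, abs_div, abs_of_pos (by positivity : (0 : ℝ) < a o * W)]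
    have g1 : |1 / (V : ℝ) - 1 / V'| ≤ 1 := by
      have k1 : 0 < 1 / (V : ℝ) := by positivity
      have k2 : 0 < 1 / (V' : ℝ) := by positivity
      have k3 : 1 / (V : ℝ) ≤ 1 := by
        rw [div_le_one (by positivity)]; exact hVr
      have k4 : 1 / (V' : ℝ) ≤ 1 := by
        rw [div_le_one (by positivity)]; exact hVr'
      rw [abs_le]
      constructor <;> linarith
    have g2 : |(b o : ℝ)| / (a o * W) ≤ |(b o : ℝ)| := by
      apply div_le_self (abs_nonneg _)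
      nlinarith
    have g3 : 0 ≤ |(b o : ℝ)| / (a o * W) := by positivity
    calc |1 / (V : ℝ) - 1 / V'| * (|(b o : ℝ)| / (a o * W))
        ≤ 1 * (|(b o : ℝ)| / (a o * W)) := mul_le_mul_of_nonneg_right g1 g3
      _ ≤ |(b o : ℝ)| := by rw [one_mul]; exact g2
  -- the two size conditions
  have hx1 : |x / (V * W) - x / (V' * W)| * (V * W) ≤ x * D / lo := by
    have e : x / (V * W) - x / (V' * W) = x * (V' - V) / (V * W * V') := by field_simp
    rw [e, abs_div, abs_mul, abs_of_nonneg hx, abs_of_pos (by positivity : (0 : ℝ) < V * W * V'),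
      div_mul_eq_mul_div, div_le_div_iff₀ (by positivity) hlo]
    have g1 : x * |(V' : ℝ) - V| ≤ x * D := mul_le_mul_of_nonneg_left hD hx
    have g2 : x * |(V' : ℝ) - V| * (V * W) * lo ≤ x * D * (V * W) * V' := by
      have : x * |(V' : ℝ) - V| * (V * W) ≤ x * D * (V * W) :=
        mul_le_mul_of_nonneg_right g1 hVW.le
      exact mul_le_mul this hl2 hlo.le (by positivity)
    linarith
  have hx2 : |x / (V * W) - x / (V' * W)| * (V' * W) ≤ x * D / lo := by
    have e : x / (V * W) - x / (V' * W) = x * (V' - V) / (V' * W * V) := by field_simp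
    rw [e, abs_div, abs_mul, abs_of_nonneg hx, abs_of_pos (by positivity : (0 : ℝ) < V' * W * V),
      div_mul_eq_mul_div, div_le_div_iff₀ (by positivity) hlo]
    have g1 : x * |(V' : ℝ) - V| ≤ x * D := mul_le_mul_of_nonneg_left hD hx
    have g2 : x * |(V' : ℝ) - V| * (V' * W) * lo ≤ x * D * (V' * W) * V := by
      have : x * |(V' : ℝ) - V| * (V' * W) ≤ x * D * (V' * W) :=
        mul_le_mul_of_nonneg_right g1 hVW'.le
      exact mul_le_mul this hl1 hlo.le (by positivity)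
    linarith
  have hbY : 0 ≤ |(b o : ℝ)| + (Y : ℝ) ^ C * (2 * E + 1) := by positivity
  have h1 : (|x / (V * W) - x / (V' * W)| + |(b o : ℝ)| +
      (Y : ℝ) ^ C * (2 * E + 1)) * (V * W) ≤ Z := by
    have g1 : (|(b o : ℝ)| + (Y : ℝ) ^ C * (2 * E + 1)) * (V * W) ≤
        (|(b o : ℝ)| + (Y : ℝ) ^ C * (2 * E + 1)) * (hi * W) :=
      mul_le_mul_of_nonneg_left (mul_le_mul_of_nonneg_right hh1 (by linarith)) hbY
    linarith
  have h2 : (|x / (V * W) - x / (V' * W)| + |(b o : ℝ)| +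
      (Y : ℝ) ^ C * (2 * E + 1)) * (V' * W) ≤ Z := by
    have g1 : (|(b o : ℝ)| + (Y : ℝ) ^ C * (2 * E + 1)) * (V' * W) ≤
        (|(b o : ℝ)| + (Y : ℝ) ^ C * (2 * E + 1)) * (hi * W) :=
      mul_le_mul_of_nonneg_left (mul_le_mul_of_nonneg_right hh2 (by linarith)) hbY
    linarith
  set T₀ : ℤ := ⌊max τ₁ τ₂⌋ + 1 with hT₀
  have hlo' : ∀ t : ℤ, T₀ ≤ t → max τ₁ τ₂ < t := by
    intro t ht
    have : ⌊max τ₁ τ₂⌋ < t := by omega
    exact Int.floor_lt.1 this
  have hhi : ∀ t : ℤ, t < T₀ + (Y ^ C * (2 * E + 1) : ℕ) →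
      (t : ℝ) ≤ max τ₁ τ₂ + (Y : ℝ) ^ C * (2 * E + 1) := by
    intro t ht
    have g1 : t ≤ ⌊max τ₁ τ₂⌋ + (Y ^ C * (2 * E + 1) : ℕ) := by omega
    have g2 : (t : ℝ) ≤ (⌊max τ₁ τ₂⌋ : ℝ) + ((Y ^ C * (2 * E + 1) : ℕ) : ℝ) := by
      exact_mod_cast g1
    have g3 := Int.floor_le (max τ₁ τ₂)
    push_cast at g2
    linarith
  have hmax1 : max τ₁ τ₂ ≤ τ₁ + |τ₁ - τ₂| := by
    apply max_le
    · have := abs_nonneg (τ₁ - τ₂); linarith
    · have := neg_abs_le (τ₁ - τ₂); linarith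
  have hmax2 : max τ₁ τ₂ ≤ τ₂ + |τ₁ - τ₂| := by
    apply max_le
    · have := le_abs_self (τ₁ - τ₂); linarith
    · have := abs_nonneg (τ₁ - τ₂); linarith
  have hτ₁' : τ₁ * (V * W) = x - n₀ - W * v * μ := by
    rw [hτ₁]; field_simp
  have hτ₂' : τ₂ * (V' * W) = x - n₀ - W * v' * μ := by
    rw [hτ₂]; field_simp
  have hin1 : ∀ t : ℤ, T₀ ≤ t → t < T₀ + (Y ^ C * (2 * E + 1) : ℕ) →
      x < (nn a b o W n₀ v t : ℝ) ∧ (nn a b o W n₀ v t : ℝ) ≤ x + Z := by
    intro t ht1 ht2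
    have k1 := hlo' t ht1
    have k2 := hhi t ht2
    have k3 : (nn a b o W n₀ v t : ℝ) = n₀ + W * v * μ + t * (V * W) := by
      rw [hvr, hμ]
      unfold nn
      push_cast
      ring
    have k4 : τ₁ * (V * W) < t * (V * W) :=
      mul_lt_mul_of_pos_right (lt_of_le_of_lt (le_max_left _ _) k1) hVW
    have k5 : (t : ℝ) * (V * W) ≤ (τ₁ + (|x / (V * W) - x / (V' * W)| + |(b o : ℝ)| +
        (Y : ℝ) ^ C * (2 * E + 1))) * (V * W) := mul_le_mul_of_nonneg_right (by linarith) hVW.le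
    rw [add_mul] at k5
    rw [k3]
    constructor <;> linarith
  have hin2 : ∀ t : ℤ, T₀ ≤ t → t < T₀ + (Y ^ C * (2 * E + 1) : ℕ) →
      x < (nn a b o W n₀ v' t : ℝ) ∧ (nn a b o W n₀ v' t : ℝ) ≤ x + Z := by
    intro t ht1 ht2
    have k1 := hlo' t ht1
    have k2 := hhi t ht2
    have k3 : (nn a b o W n₀ v' t : ℝ) = n₀ + W * v' * μ + t * (V' * W) := by
      rw [hvr', hμ]
      unfold nn
      push_cast
      ring
    have k4 : τ₂ * (V' * W) < t * (V' * W) :=
      mul_lt_mul_of_pos_right (lt_of_le_of_lt (le_max_right _ _) k1) hVW'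
    have k5 : (t : ℝ) * (V' * W) ≤ (τ₂ + (|x / (V * W) - x / (V' * W)| + |(b o : ℝ)| +
        (Y : ℝ) ^ C * (2 * E + 1))) * (V' * W) := mul_le_mul_of_nonneg_right (by linarith) hVW'.le
    rw [add_mul] at k5
    rw [k3]
    constructor <;> linarith
  -- the sieve
  set u : Bool → ℤ := fun β => if β then v' else v with hu
  have hUr : ∀ β, Rough Y (1 + a o * W * u β) := by
    intro β
    cases β
    · simpa [hu] using hrV
    · simpa [hu] using hrV'
  have hsv := hSV (ι × Bool) (by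
      rw [Fintype.card_prod, Fintype.card_bool]; omega)
    (fun x => a x.1 * (1 + a o * W * u x.2) * W)
    (fun x => a x.1 * (n₀ + W * u x.2 * μ) + b x.1) Y hY (by
      rintro ⟨i, β⟩ p hp hpY hd hd'
      simp only at hd hd'
      have key : p ∣ W → False := by
        intro h
        have h1 : (p : ℤ) ∣ a i * n₀ + b i := by
          have h2 : a i * n₀ + b i = (a i * (n₀ + W * u β * μ) + b i) - W * (a i * u β * μ) := by
            ring
          rw [h2]
          exact dvd_sub hd' ((Int.natCast_dvd_natCast.2 h).mul_right _)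
        exact hn₀ i p hp h h1
      rcases Int.Prime.dvd_mul' hp hd with h | h
      · rcases Int.Prime.dvd_mul' hp h with h | h
        · exact key (hWa i p hp h)
        · exact hUr β p hp hpY h
      · exact key (Int.natCast_dvd_natCast.1 h))
    (by
      rintro ⟨i, β⟩ p hp hpK
      exact (Int.natCast_dvd_natCast.2 (hWp p hp hpK)).mul_left _)
    T₀ (Y ^ C * (2 * E + 1)) (Nat.le_mul_of_pos_right _ (by omega))
  set G : Set ℤ := {t : ℤ | T₀ ≤ t ∧ t < T₀ + (Y ^ C * (2 * E + 1) : ℕ) ∧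
    ∀ x : ι × Bool, Rough Y (a x.1 * (1 + a o * W * u x.2) * W * t +
      (a x.1 * (n₀ + W * u x.2 * μ) + b x.1))} with hG
  have hGfin : G.Finite := (Set.finite_Ico T₀ (T₀ + (Y ^ C * (2 * E + 1) : ℕ))).subset
    fun t ht => ⟨ht.1, ht.2.1⟩
  have hcard : 2 * E + 1 ≤ G.ncard := Nat.le_of_mul_le_mul_left hsv (by positivity)
  by_contra hne
  have hWz : (0 : ℤ) < W := by exact_mod_cast hW
  have hfin1 : {t : ℤ | nn a b o W n₀ v t ∈ Ex a b o F W n₀ Y Z x c}.Finite := by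
    refine Set.Finite.preimage ?_ (ex_finite a b o F W n₀ Y Z x c)
    intro s _ t _ hst
    simp only [nn] at hst
    have : V * W * s = V * W * t := by linarith
    exact mul_left_cancel₀ (mul_pos hV hWz).ne' this
  have hfin2 : {t : ℤ | nn a b o W n₀ v' t ∈ Ex a b o F W n₀ Y Z x c}.Finite := by
    refine Set.Finite.preimage ?_ (ex_finite a b o F W n₀ Y Z x c)
    intro s _ t _ hst
    simp only [nn] at hst
    have : V' * W * s = V' * W * t := by linarith
    exact mul_left_cancel₀ (mul_pos hV' hWz).ne' this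
  have hcover : G ⊆ {t : ℤ | nn a b o W n₀ v t ∈ Ex a b o F W n₀ Y Z x c} ∪
      {t : ℤ | nn a b o W n₀ v' t ∈ Ex a b o F W n₀ Y Z x c} := by
    intro t ht
    obtain ⟨ht1, ht2, ht3⟩ := ht
    have hr1 : ∀ i, Rough Y (a i * nn a b o W n₀ v t + b i) := by
      intro i
      have := ht3 (i, false)
      have e : a i * nn a b o W n₀ v t + b i = a i * (1 + a o * W * u false) * W * t +
          (a i * (n₀ + W * u false * μ) + b i) := by
        simp only [hu, nn, hμ]
        simp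
        ring
      rw [e]
      exact this
    have hr2 : ∀ i, Rough Y (a i * nn a b o W n₀ v' t + b i) := by
      intro i
      have := ht3 (i, true)
      have e : a i * nn a b o W n₀ v' t + b i = a i * (1 + a o * W * u true) * W * t +
          (a i * (n₀ + W * u true * μ) + b i) := by
        simp only [hu, nn, hμ]
        simp
        ring
      rw [e]
      exact this
    have hm0 : (a o * n₀ + b o) + a o * W * t ≠ 0 := by
      have := hr1 o
      rw [nn_eq] at this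
      exact rough_ne_zero hY (rough_of_mul this)
    by_contra hcon
    rw [Set.mem_union, not_or] at hcon
    obtain ⟨h4, h5⟩ := hcon
    have h6 : F (a o * nn a b o W n₀ v t + b o) = c := by
      by_contra h
      exact h4 ⟨(hin1 t ht1 ht2).1, (hin1 t ht1 ht2).2, nn_class a b o W n₀ v t, hr1, h⟩
    have h7 : F (a o * nn a b o W n₀ v' t + b o) = c := by
      by_contra h
      exact h5 ⟨(hin2 t ht1 ht2).1, (hin2 t ht1 ht2).2, nn_class a b o W n₀ v' t, hr2, h⟩
    rw [nn_eq, hF _ _ hV.ne' hm0] at h6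
    rw [nn_eq, hF _ _ hV'.ne' hm0] at h7
    exact hne (add_right_cancel (h6.trans h7.symm))
  have k3 := Set.ncard_le_ncard hcover (hfin1.union hfin2)
  have k4 := Set.ncard_union_le {t : ℤ | nn a b o W n₀ v t ∈ Ex a b o F W n₀ Y Z x c}
    {t : ℤ | nn a b o W n₀ v' t ∈ Ex a b o F W n₀ Y Z x c}
  omega

end Pool.Agent.W5h75.ST
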