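import Mathlib
import Pool.Agent.W5h75.ST.Link2
import Pool.Agent.W5h75.SR.Chain

/-!
Many exceptions: from the window `(x, x + Z]` to the windows of the rough numbers `V`.
-/

set_option autoImplicit false

open Finset

namespace Pool.Agent.W5h75.ST

open Pool.Agent.H661R3.OP
open Pool.Agent.W5h75.SP (SVK rough_mul rough_ne_zero)
open Pool.Agent.W5h75.SR (Ex ex_finite rough_of_mul Cst)

theorem dense {ι : Type} [Fintype ι] (a b : ι → ℤ) (o : ι) (W : ℕ) (n₀ : ℤ) (K C : ℕ)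
    (hSV : SVK K C) (hK : 2 * Fintype.card ι ≤ K) (hW : 0 < W)
    (hWp : ∀ p : ℕ, p.Prime → p ≤ 2 * K → p ∣ W)
    (hWa : ∀ i, ∀ p : ℕ, p.Prime → (p : ℤ) ∣ a i → p ∣ W) (Y : ℕ) (hY : 2 ≤ Y)
    (hao : 0 < a o)
    (hn₀ : ∀ i, ∀ p : ℕ, p.Prime → p ∣ W → ¬ (p : ℤ) ∣ a i * n₀ + b i)
    (F : ℤ → ZMod 2) (hF : Add2 F) (Z : ℤ) (x : ℝ) (hx : 0 ≤ x) (c : ZMod 2)
    (R : ℕ) (hR : ∀ n ∈ Ex a b o F W n₀ Y Z x c, a o * n + b o ≠ 0 ∧
      ArithmeticFunction.cardFactors (a o * n + b o).natAbs ≤ R)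
    (q : ℕ) (hq : (q : ℤ) = a o * W)
    (M B₀ EV ZV : ℕ) (hM : 0 < M)
    (hZ : x * ZV / (3 * M) + (|(b o : ℝ)| + (Y : ℝ) ^ C * (2 * B₀ + 1)) * ((6 * M + ZV) * W) ≤ Z)
    (j n : ℕ) (hn : n + 1 = 2 ^ j) (hnK : 2 * (n + 1) ≤ K)
    (hcnt : 2 * (2 ^ n + 1) * (2 ^ R * (Ex a b o F W n₀ Y Z x c).ncard * ZV) <
      M * ((B₀ + 1) * (EV + 1)))
    (A : ℤ) (hA : 0 < A)
    (c1 : (n + 1) * ((n + 1).factorial * ((3 * (q : ℝ) * (Y : ℝ) ^ C) / A)) ≤ 1 / 20)
    (c2 : (0 + (Y : ℝ) ^ C * (2 * EV + 1)) * (((Y : ℝ) ^ 2 *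
      (1 + (n + 1) * (q : ℝ) * (A + (Y : ℝ) ^ C)) +
      (n + 1) * (3 * (q : ℝ) * (Y : ℝ) ^ C)) * q) ≤ ZV)
    (c3 : (10 * M * (n.factorial * ((3 * (q : ℝ) * (Y : ℝ) ^ C) / A) ^ (n + 1)) +
      0 + (Y : ℝ) ^ C * (2 * EV + 1)) * q ≤ ZV)
    (p : ℕ) (hp : p.Prime) (hYp : Y < p) (hpY : p ≤ Y ^ 2)
    (hpQ : (((n + 1) * q : ℕ) : ℤ) ∣ (p : ℤ) - 1) : F p = 0 := by
  classical
  have hWz : (0 : ℤ) < W := by exact_mod_cast hW
  have hq0 : 0 < q := by
    have : (0 : ℤ) < q := by rw [hq]; exact mul_pos hao hWz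
    exact_mod_cast this
  have hMr : (0 : ℝ) < M := by exact_mod_cast hM
  have hMz : (0 : ℤ) < M := by exact_mod_cast hM
  set S : Set ℤ := Ex a b o F W n₀ Y Z x c with hS
  have hSfin : S.Finite := ex_finite a b o F W n₀ Y Z x c
  set Sf : Finset ℤ := hSfin.toFinset with hSf
  have hSfc : Sf.card = S.ncard := (Set.ncard_eq_toFinset_card _ hSfin).symm
  -- the rough numbers with many exceptional multiples
  set BV : Finset ℤ := (Icc (3 * (M : ℤ)) (6 * M + ZV)).filter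
    (fun V => ∃ v : ℤ, V = 1 + a o * W * v ∧
      B₀ < {t : ℤ | nn a b o W n₀ v t ∈ S}.ncard) with hBV
  have hBVc : BV.card * (B₀ + 1) ≤ Sf.card * 2 ^ R := by
    refine Finset.card_mul_le_card_mul (fun V n => V ∣ a o * n + b o) ?_ ?_
    · intro V hV
      obtain ⟨hV1, v, hv, hV2⟩ := mem_filter.1 hV
      have hVpos : 0 < V := by have := (mem_Icc.1 hV1).1; linarith
      have hinj : Set.InjOn (nn a b o W n₀ v) {t : ℤ | nn a b o W n₀ v t ∈ S} := by
        intro s _ t _ hst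
        simp only [nn] at hst
        have : V * W * s = V * W * t := by rw [hv]; linarith
        exact mul_left_cancel₀ (mul_pos hVpos hWz).ne' this
      have h1 : {t : ℤ | nn a b o W n₀ v t ∈ S}.ncard ≤
          ((Sf.bipartiteAbove (fun V n => V ∣ a o * n + b o) V : Finset ℤ) : Set ℤ).ncard := by
        refine Set.ncard_le_ncard_of_injOn (nn a b o W n₀ v) ?_ hinj (Finset.finite_toSet _)
        intro t ht
        rw [Finset.mem_coe, Finset.mem_bipartiteAbove]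
        refine ⟨(Set.Finite.mem_toFinset hSfin).2 ht, ?_⟩
        show V ∣ a o * nn a b o W n₀ v t + b o
        rw [nn_eq, ← hv]
        exact dvd_mul_right _ _
      rw [Set.ncard_coe_finset] at h1
      omega
    · intro m hm
      obtain ⟨hm0, hmR⟩ := hR m ((Set.Finite.mem_toFinset hSfin).1 hm)
      have h1 : BV.bipartiteBelow (fun V n => V ∣ a o * n + b o) m ⊆
          (a o * m + b o).natAbs.divisors.image (fun d : ℕ => (d : ℤ)) := by
        intro V hV
        rw [Finset.mem_bipartiteBelow] at hV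
        obtain ⟨hV1, hV2⟩ := hV
        have hVpos : 0 < V := by
          have := (mem_Icc.1 (mem_filter.1 hV1).1).1
          linarith
        rw [mem_image]
        refine ⟨V.natAbs, ?_, Int.natAbs_of_nonneg hVpos.le⟩
        rw [Nat.mem_divisors]
        exact ⟨Int.natAbs_dvd_natAbs.2 hV2, Int.natAbs_ne_zero.2 hm0⟩
      refine (card_le_card h1).trans (card_image_le.trans ?_)
      exact (card_divisors_le _ (Int.natAbs_ne_zero.2 hm0)).trans
        (Nat.pow_le_pow_right (by norm_num) hmR)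
  -- the bad windows
  set B : Finset ℤ := (Icc (3 * (M : ℤ)) (6 * M)).filter
    (fun N => EV < (BV.filter (fun V => N < V ∧ V ≤ N + ZV)).card) with hB
  have hBc : B.card * (EV + 1) ≤ BV.card * ZV := by
    refine Finset.card_mul_le_card_mul (fun N V : ℤ => N < V ∧ V ≤ N + ZV) ?_ ?_
    · intro N hN
      have := (mem_filter.1 hN).2
      exact this
    · intro V hV
      have h1 : B.bipartiteBelow (fun N V : ℤ => N < V ∧ V ≤ N + ZV) V ⊆
          Ico (V - (ZV : ℤ)) V := by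
        intro N hN
        rw [Finset.mem_bipartiteBelow] at hN
        rw [mem_Ico]
        constructor <;> linarith [hN.2.1, hN.2.2]
      refine (card_le_card h1).trans ?_
      rw [Int.card_Ico]
      omega
  have hcount : 2 * (2 ^ n + 1) * B.card < M := by
    by_contra hcon
    push Not at hcon
    have e1 : M * ((B₀ + 1) * (EV + 1)) ≤
        2 * (2 ^ n + 1) * (2 ^ R * S.ncard * ZV) := by
      calc M * ((B₀ + 1) * (EV + 1)) ≤ (2 * (2 ^ n + 1) * B.card) * ((B₀ + 1) * (EV + 1)) :=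
            Nat.mul_le_mul_right _ hcon
        _ = 2 * (2 ^ n + 1) * (B.card * (EV + 1)) * (B₀ + 1) := by ring
        _ ≤ 2 * (2 ^ n + 1) * (BV.card * ZV) * (B₀ + 1) :=
            Nat.mul_le_mul_right _ (Nat.mul_le_mul_left _ hBc)
        _ = 2 * (2 ^ n + 1) * ZV * (BV.card * (B₀ + 1)) := by ring
        _ ≤ 2 * (2 ^ n + 1) * ZV * (Sf.card * 2 ^ R) := Nat.mul_le_mul_left _ hBVc
        _ = 2 * (2 ^ n + 1) * (2 ^ R * S.ncard * ZV) := by rw [hSfc]; ring
    omega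
  -- the windows which are not bad
  have hBcst : ∀ N : ℤ, 3 * M ≤ N → N ≤ 6 * M → N ∉ B →
      ∃ c', Cst (fun _ : Unit => (1 : ℤ)) (fun _ => 0) () F q 1 Y ZV EV N c' := by
    intro N hN1 hN2 hN3
    have hcardN : (BV.filter (fun V => N < V ∧ V ≤ N + ZV)).card ≤ EV := by
      by_contra hcon
      push Not at hcon
      exact hN3 (mem_filter.2 ⟨mem_Icc.2 ⟨hN1, hN2⟩, hcon⟩)
    -- the elements of a window
    have hel : ∀ V : ℤ, (N : ℝ) < V → (V : ℝ) ≤ (N : ℝ) + ((ZV : ℤ) : ℝ) → (q : ℤ) ∣ V - 1 →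
        (∀ i : Unit, Rough Y ((fun _ : Unit => (1 : ℤ)) i * V + (fun _ : Unit => (0 : ℤ)) i)) →
        V ∉ BV.filter (fun V => N < V ∧ V ≤ N + ZV) →
        ∃ v : ℤ, V = 1 + a o * W * v ∧ Rough Y V ∧ N < V ∧ V ≤ N + ZV ∧
          {t : ℤ | nn a b o W n₀ v t ∈ S}.ncard ≤ B₀ := by
      intro V h1 h2 h3 h4 h5
      obtain ⟨v, hv⟩ := h3
      have h1' : N < V := by exact_mod_cast h1
      have h2' : V ≤ N + ZV := by exact_mod_cast h2
      have hv' : V = 1 + a o * W * v := by rw [← hq]; linarith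
      have h4' : Rough Y V := by
        have := h4 ()
        simpa using this
      refine ⟨v, hv', h4', h1', h2', ?_⟩
      by_contra hcon
      push Not at hcon
      refine h5 (mem_filter.2 ⟨mem_filter.2 ⟨mem_Icc.2 ⟨by linarith, by linarith⟩, v, hv', hcon⟩,
        h1', h2'⟩)
    by_cases hex : ∃ V : ℤ, (N : ℝ) < V ∧ (V : ℝ) ≤ (N : ℝ) + ((ZV : ℤ) : ℝ) ∧ (q : ℤ) ∣ V - 1 ∧
        (∀ i : Unit, Rough Y ((fun _ : Unit => (1 : ℤ)) i * V + (fun _ : Unit => (0 : ℤ)) i)) ∧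
        V ∉ BV.filter (fun V => N < V ∧ V ≤ N + ZV)
    · obtain ⟨V₁, g1, g2, g3, g4, g5⟩ := hex
      obtain ⟨v₁, f1, f2, f3, f4, f5⟩ := hel V₁ g1 g2 g3 g4 g5
      refine ⟨F V₁, ?_⟩
      refine le_trans ?_ hcardN
      rw [← Set.ncard_coe_finset]
      refine Set.ncard_le_ncard ?_ (Finset.finite_toSet _)
      rintro V ⟨k1, k2, k3, k4, k5⟩
      rw [Finset.mem_coe]
      by_contra hcon
      obtain ⟨v, l1, l2, l3, l4, l5⟩ := hel V k1 k2 k3 k4 hcon
      apply k5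
      have hFV : F V = F V₁ := by
        have hMN : (3 * (M : ℝ)) ≤ N := by exact_mod_cast hN1
        have hMN2 : (N : ℝ) ≤ 6 * M := by exact_mod_cast hN2
        have m1 : (N : ℝ) < V := by exact_mod_cast l3
        have m2 : (V : ℝ) ≤ N + ZV := by exact_mod_cast l4
        have m3 : (N : ℝ) < V₁ := by exact_mod_cast f3
        have m4 : (V₁ : ℝ) ≤ N + ZV := by exact_mod_cast f4
        rw [l1, f1]
        refine link a b o W n₀ K C hSV hK hW hWp hWa Y hY hao hn₀ F hF Z B₀ x hx c v v₁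
          (by rw [← l1]; linarith) (by rw [← f1]; linarith) (by rw [← l1]; exact l2)
          (by rw [← f1]; exact f2) l5 f5 (3 * M) (6 * M + ZV) ZV (by positivity)
          (by rw [← l1]; linarith) (by rw [← f1]; linarith) (by rw [← l1]; linarith)
          (by rw [← f1]; linarith) (by
            rw [← l1, ← f1, abs_le]
            constructor <;> linarith) hZ
      simpa using hFV
    · push Not at hex
      refine ⟨0, ?_⟩
      refine le_trans ?_ hcardN
      rw [← Set.ncard_coe_finset]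
      refine Set.ncard_le_ncard ?_ (Finset.finite_toSet _)
      rintro V ⟨k1, k2, k3, k4, -⟩
      exact hex V k1 k2 k3 k4
  refine Pool.Agent.W5h75.SR.core (fun _ : Unit => (1 : ℤ)) (fun _ => 0) () q 1 K C hSV
    (by
      rw [Fintype.card_unit]
      omega) hq0 (fun p hp hpK => by
      have h1 : (p : ℤ) ∣ (q : ℤ) := by
        rw [hq]
        exact (Int.natCast_dvd_natCast.2 (hWp p hp hpK)).mul_left _
      exact Int.natCast_dvd_natCast.1 h1) (fun _ p hp hd => by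
      exfalso
      have h2 : p ∣ 1 := Int.natCast_dvd_natCast.1 (by simpa using hd)
      exact hp.one_lt.ne' (Nat.dvd_one.1 h2)) Y hY one_pos (fun _ p hp _ hd => by
      have h2 : p ∣ 1 := Int.natCast_dvd_natCast.1 (by simpa using hd)
      exact hp.one_lt.ne' (Nat.dvd_one.1 h2)) F hF ZV EV M B hBcst j n hn hnK hcount A hA ?_ ?_ ?_ p
    hp hYp hpY ?_
  · simpa using c1
  · simpa using c2
  · simpa using c3
  · have e1 : (((n + 1 : ℕ) : ℤ) * (1 * (q : ℤ))) = (((n + 1) * q : ℕ) : ℤ) := by push_cast; ring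
    show (((n + 1 : ℕ) : ℤ) * (1 * (q : ℤ))) ∣ (p : ℤ) - 1
    rw [e1]
    exact hpQ

end Pool.Agent.W5h75.ST
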