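import Mathlib
import Pool.Agent.W5h75.ST.Dense
import Pool.Agent.W5h75.ST.Cond
import Pool.Agent.W5h75.SR.Real

/-!
Parity of the number of prime factors of one member of a rough tuple, in all intervals
`(x, x + x ^ θ]`, `θ > 1 / 2`, with almost the full number of elements.
-/

set_option autoImplicit false

open Finset

namespace Pool.Agent.W5h75.ST

open Pool.Agent.H661R3.OP
open Pool.Agent.W5h75.SP (SVK exists_SVK)
open Pool.Agent.W5h75.SQ (Fpar add2_Fpar exists_W)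
open Pool.Agent.W5h75.SR (Ex ex_finite sizes)

theorem mem_props {ι : Type} (a b : ι → ℤ) (o : ι) (ha : ∀ i, 0 < a i) (m : ℕ) (r : ℤ) (W : ℕ)
    (n₀ : ℤ) (hmW : m ∣ W) (hn₀r : (m : ℤ) ∣ n₀ - r) (Y : ℕ) (Z : ℤ) (x θ δ : ℝ) (R : ℕ)
    (hR : 2 / δ ≤ R) (hδ : 0 < δ) (hx6 : 6 ≤ x)
    (hbd : ∀ i, 2 * (a i : ℝ) + |(b i : ℝ)| + 6 ≤ x) (hZ1 : (Z : ℝ) ≤ x ^ θ) (hxθ : x ^ θ ≤ x)
    (hY : x ^ δ < (Y : ℝ) + 1) (c : ZMod 2) (n : ℤ) (hn : n ∈ Ex a b o Fpar W n₀ Y Z x c) :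
      0 ≤ n ∧ x < n ∧ (n : ℝ) ≤ x + x ^ θ ∧ (m : ℤ) ∣ n - r ∧
        (∀ i, 0 < a i * n + b i ∧ ArithmeticFunction.cardFactors (a i * n + b i).natAbs ≤ R ∧
          ∀ p : ℕ, p.Prime → (p : ℤ) ∣ a i * n + b i → x ^ δ < p) ∧
        Fpar (a o * n + b o) ≠ c := by
  have hx0 : 0 < x := by linarith
  obtain ⟨hn1, hn2, hncl, hn3, hn4⟩ := hn
  have hn0 : 0 ≤ n := by
    have : (0 : ℝ) ≤ n := by linarith
    exact_mod_cast this
  refine ⟨hn0, hn1, by linarith, ?_, ?_, hn4⟩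
  · have h6 : (m : ℤ) ∣ W := Int.natCast_dvd_natCast.2 hmW
    have h7 : n - r = (n - n₀) + (n₀ - r) := by ring
    rw [h7]
    exact dvd_add (h6.trans hncl) hn₀r
  · intro i
    have hai : (1 : ℝ) ≤ a i := by exact_mod_cast ha i
    have hbi := hbd i
    have hab1 : -(b i : ℝ) ≤ |(b i : ℝ)| := neg_le_abs _
    have hab2 : (b i : ℝ) ≤ |(b i : ℝ)| := le_abs_self _
    have hbn : 0 ≤ |(b i : ℝ)| := abs_nonneg _
    have hpos : 0 < a i * n + b i := by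
      have : (0 : ℝ) < (a i : ℝ) * n + b i := by nlinarith
      exact_mod_cast this
    have hrough : ∀ p : ℕ, p.Prime → (p : ℤ) ∣ a i * n + b i → x ^ δ < p := by
      intro p hp hpd
      have h6 : ¬ p ≤ Y := fun h => hn3 i p hp h hpd
      push Not at h6
      calc x ^ δ < (Y : ℝ) + 1 := hY
        _ ≤ p := by exact_mod_cast h6
    refine ⟨hpos, ?_, hrough⟩
    refine card_le _ (by omega) x δ (by linarith) hδ R hR ?_ ?_
    · have h6 : (((a i * n + b i).natAbs : ℕ) : ℝ) = (a i : ℝ) * n + b i := by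
        have h7 : (((a i * n + b i).natAbs : ℕ) : ℤ) = a i * n + b i :=
          Int.natAbs_of_nonneg hpos.le
        have h8 : ((((a i * n + b i).natAbs : ℕ) : ℤ) : ℝ) = ((a i * n + b i : ℤ) : ℝ) := by
          rw [h7]
        push_cast at h8
        simpa using h8
      rw [h6]
      have h9 : (n : ℝ) ≤ 2 * x := by linarith
      have h10 : (a i : ℝ) * n ≤ a i * (2 * x) := mul_le_mul_of_nonneg_left h9 (by linarith)
      have h11 : (b i : ℝ) ≤ |(b i : ℝ)| * x := by nlinarith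
      have h12 : (2 * (a i : ℝ) + |(b i : ℝ)|) * x ≤ x * x :=
        mul_le_mul_of_nonneg_right (by linarith) hx0.le
      nlinarith
    · intro p hp hpd
      exact hrough p hp (Int.natCast_dvd.2 hpd)

theorem every (ι : Type) [Fintype ι] (a b : ι → ℤ) (o : ι) (ha : ∀ i, 0 < a i) (m : ℕ)
    (hm : 0 < m) (r : ℤ)
    (hadm : ∀ p : ℕ, p.Prime → ∃ n : ℤ, ∀ i, ¬ (p : ℤ) ∣ a i * (r + m * n) + b i)
    (θ ε : ℝ) (hθ : 1 / 2 < θ) (hθ1 : θ ≤ 1) (hε : 0 < ε) :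
    ∃ (R : ℕ) (δ : ℝ), 0 < δ ∧ ∃ x₀ : ℝ, ∀ x : ℝ, x₀ ≤ x → ∀ s : ZMod 2, x ^ (θ - ε) ≤
      ({n : ℕ | x < n ∧ (n : ℝ) ≤ x + x ^ θ ∧ (m : ℤ) ∣ n - r ∧
        (∀ i, 0 < a i * n + b i ∧ ArithmeticFunction.cardFactors (a i * n + b i).natAbs ≤ R ∧
          ∀ p : ℕ, p.Prime → (p : ℤ) ∣ a i * n + b i → x ^ δ < p) ∧
        ((ArithmeticFunction.cardFactors (a o * n + b o).natAbs : ℕ) : ZMod 2) =
          s}.ncard : ℝ) := by
  classical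
  set e : ℝ := min ε (2 * θ - 1) with he
  have he0 : 0 < e := lt_min hε (by linarith)
  have heε : e ≤ ε := min_le_left _ _
  have heθ : e ≤ 2 * θ - 1 := min_le_right _ _
  set σ : ℝ := e / 8 with hσ
  have hσ0 : 0 < σ := by positivity
  set κ₁ : ℝ := 1 - θ + 2 * σ with hκ
  have hκ0 : 0 < κ₁ := by linarith
  have hκ2 : 2 * σ ≤ κ₁ := by linarith
  have hκ1 : κ₁ < 1 / 2 := by linarith
  set θV : ℝ := 3 / 2 * σ / κ₁ with hθV
  have hθV0 : 0 < θV := by positivity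
  have hθVκ : κ₁ * θV = 3 / 2 * σ := by rw [hθV]; field_simp
  have hθV1 : θV ≤ 1 := by
    rw [hθV, div_le_one hκ0]
    linarith
  obtain ⟨j, hj⟩ := exists_nat_ge (8 / θV)
  have h2j : 0 < 2 ^ j := by positivity
  obtain ⟨n, hn⟩ : ∃ n : ℕ, n + 1 = 2 ^ j := ⟨2 ^ j - 1, by omega⟩
  have hn8 : 8 / θV ≤ (n : ℝ) + 1 := by
    refine hj.trans ?_
    have h1 : j ≤ n + 1 := by rw [hn]; exact Nat.lt_two_pow_self.le
    exact_mod_cast h1
  have hn0 : (0 : ℝ) < (n : ℝ) + 1 := by positivity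
  set γ : ℝ := (1 - θV) / (n + 1) with hγ
  have hγ0 : 0 ≤ γ := div_nonneg (by linarith) hn0.le
  have hγn : ((n : ℝ) + 1) * γ = 1 - θV := by rw [hγ]; field_simp
  have hγe : γ ≤ θV / 8 := by
    rw [hγ, div_le_iff₀ hn0]
    rw [div_le_iff₀ hθV0] at hn8
    linarith
  set η : ℝ := θV / 16 with hη
  have hη0 : 0 < η := by positivity
  obtain ⟨C, hSV⟩ := exists_SVK (2 * Fintype.card ι + 2 * (n + 1))
  set K : ℕ := 2 * Fintype.card ι + 2 * (n + 1) with hK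
  obtain ⟨W, n₀, hW, hWp, hWa, hmW, hn₀r, hn₀, -⟩ := exists_W ι a b ha K m hm r hadm
  set δ : ℝ := η / (8 * (C + 2)) with hδ
  have hC2 : (0 : ℝ) < 8 * (C + 2) := by positivity
  have hδ0 : 0 < δ := by positivity
  have hδC2 : δ * (C + 2) = η / 8 := by rw [hδ]; field_simp
  have hδC : δ * C ≤ η / 8 := by nlinarith
  have hδ2 : 2 * δ ≤ η / 8 := by
    have : 0 ≤ δ * C := by positivity
    nlinarith
  have hWr : (1 : ℝ) ≤ W := by exact_mod_cast hW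
  have haor : (1 : ℝ) ≤ a o := by exact_mod_cast ha o
  set q : ℕ := (a o).toNat * W with hq
  have hq0 : 0 < q := Nat.mul_pos (by have := ha o; omega) hW
  have hqz : (q : ℤ) = a o * W := by
    rw [hq]
    push_cast
    rw [Int.toNat_of_nonneg (ha o).le]
  have hqr : (1 : ℝ) ≤ q := by exact_mod_cast hq0
  obtain ⟨Y₁, hY₁⟩ := t_PAP ((n + 1) * q) (Nat.mul_pos (by omega) hq0)
  set δ' : ℝ := κ₁ * δ / 2 with hδ'
  have hδ'0 : 0 < δ' := by positivity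
  obtain ⟨R, hR⟩ := exists_nat_ge (2 / δ')
  have hnn : ∀ i ∈ (Finset.univ : Finset ι), (0 : ℝ) ≤ 2 * (a i : ℝ) + |(b i : ℝ)| := by
    intro i _
    have : (0 : ℝ) < a i := by exact_mod_cast ha i
    positivity
  have hs0 : 0 ≤ ∑ i, (2 * (a i : ℝ) + |(b i : ℝ)|) := Finset.sum_nonneg hnn
  have hsz := sizes θV θV γ η δ n C q q 0 hθV0 hθV1 hθV0 le_rfl hη hγ0 hγe hγn hδ0 hδC hδ2
    hqr le_rfl hqr
  have l1 : ∀ᶠ y : ℝ in Filter.atTop, ((max Y₁ 2 : ℕ) : ℝ) ≤ y ^ δ :=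
    (tendsto_rpow_atTop hδ0).eventually_ge_atTop _
  obtain ⟨y₀, hy₀⟩ := Filter.eventually_atTop.mp (hsz.and l1)
  have m1 : ∀ᶠ x : ℝ in Filter.atTop, |y₀| + 4 ≤ x ^ κ₁ :=
    (tendsto_rpow_atTop hκ0).eventually_ge_atTop _
  have m2 := cond θ κ₁ σ W |(b o : ℝ)| (2 * (2 ^ n + 1) * 2 ^ R) hκ hσ0 (by linarith) hWr
    (abs_nonneg _) (by
      have g1 : (1 : ℝ) ≤ 2 ^ n := one_le_pow₀ (by norm_num)
      have g2 : (1 : ℝ) ≤ 2 ^ R := one_le_pow₀ (by norm_num)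
      nlinarith)
  have m3 : ∀ᶠ x : ℝ in Filter.atTop, 6 + ∑ i, (2 * (a i : ℝ) + |(b i : ℝ)|) ≤ x :=
    Filter.eventually_ge_atTop _
  have m4 : ∀ᶠ x : ℝ in Filter.atTop, (2 : ℝ) ≤ x ^ (κ₁ / 2) :=
    (tendsto_rpow_atTop (by linarith)).eventually_ge_atTop _
  obtain ⟨x₀, hx₀⟩ := Filter.eventually_atTop.mp (m1.and (m2.and (m3.and m4)))
  refine ⟨R, δ', hδ'0, x₀, ?_⟩
  intro x hx s
  obtain ⟨h1, h2, h3, h4⟩ := hx₀ x hx
  have hx6 : 6 ≤ x := by linarith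
  have hx1 : 1 ≤ x := by linarith
  have hx0 : 0 < x := by linarith
  have hxp : ∀ u : ℝ, 0 < x ^ u := fun u => Real.rpow_pos_of_pos hx0 u
  have hxm : ∀ u v : ℝ, u ≤ v → x ^ u ≤ x ^ v := fun u v h =>
    Real.rpow_le_rpow_of_exponent_le hx1 h
  have hxa : ∀ u v : ℝ, x ^ u * x ^ v = x ^ (u + v) := fun u v => (Real.rpow_add hx0 u v).symm
  have hbd : ∀ i, 2 * (a i : ℝ) + |(b i : ℝ)| + 6 ≤ x := by
    intro i
    have := Finset.single_le_sum hnn (Finset.mem_univ i)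
    linarith
  -- the scale of the rough numbers
  set M : ℕ := ⌊x ^ κ₁⌋₊ with hM
  have hM1 : (M : ℝ) ≤ x ^ κ₁ := Nat.floor_le (hxp _).le
  have hM2 : x ^ κ₁ < (M : ℝ) + 1 := Nat.lt_floor_add_one _
  have hy0abs : 0 ≤ |y₀| := abs_nonneg _
  have hM3 : x ^ κ₁ / 2 ≤ (M : ℝ) := by linarith
  have hMy : y₀ ≤ (M : ℝ) := by
    have := le_abs_self y₀
    linarith
  obtain ⟨hsize, hsize1⟩ := hy₀ (M : ℝ) hMy
  set y : ℝ := (M : ℝ) with hy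
  have hy1 : 1 ≤ y := by linarith
  have hyp0 : 0 < y := by linarith
  have hM0 : 0 < M := by
    have : (0 : ℝ) < (M : ℝ) := hyp0
    exact_mod_cast this
  have hyp : ∀ u : ℝ, 0 < y ^ u := fun u => Real.rpow_pos_of_pos hyp0 u
  have hyx : ∀ u : ℝ, 0 ≤ u → y ^ u ≤ x ^ (κ₁ * u) := by
    intro u hu
    rw [Real.rpow_mul hx0.le]
    exact Real.rpow_le_rpow hyp0.le hM1 hu
  set Y : ℕ := ⌊y ^ δ⌋₊ with hY
  have hYle : (Y : ℝ) ≤ y ^ δ := Nat.floor_le (by positivity)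
  have hYmax : max Y₁ 2 ≤ Y := Nat.le_floor hsize1
  have hY2 : 2 ≤ Y := (le_max_right _ _).trans hYmax
  have hYC : (Y : ℝ) ^ C ≤ x ^ (σ / 2) := by
    have g1 : (Y : ℝ) ^ C ≤ y ^ (δ * C) := by
      calc (Y : ℝ) ^ C ≤ (y ^ δ) ^ C := pow_le_pow_left₀ (Nat.cast_nonneg _) hYle C
        _ = y ^ (δ * C) := by rw [← Real.rpow_natCast, ← Real.rpow_mul hyp0.le]
    refine g1.trans ((hyx _ (by positivity)).trans (hxm _ _ ?_))
    calc κ₁ * (δ * C) ≤ κ₁ * (η / 8) := mul_le_mul_of_nonneg_left hδC hκ0.le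
      _ = κ₁ * θV / 128 := by rw [hη]; ring
      _ ≤ σ / 2 := by rw [hθVκ]; linarith
  set A : ℤ := ⌈y ^ (γ + η)⌉ with hA
  have hA1 : y ^ (γ + η) ≤ A := Int.le_ceil _
  have hone : 1 ≤ y ^ (γ + η) := Real.one_le_rpow hy1 (by linarith)
  have hA2 : (A : ℝ) ≤ 2 * y ^ (γ + η) := by
    have := Int.ceil_lt_add_one (y ^ (γ + η))
    linarith
  have hA0 : 0 < A := by
    have : (0 : ℝ) < A := by linarith
    exact_mod_cast this
  set ZV : ℕ := ⌈y ^ θV⌉₊ with hZV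
  have hZV1 : y ^ θV ≤ ZV := Nat.le_ceil _
  have honeV : 1 ≤ y ^ θV := Real.one_le_rpow hy1 hθV0.le
  have hZV2 : (ZV : ℝ) ≤ 2 * y ^ θV := by
    have := Nat.ceil_lt_add_one (hyp θV).le
    linarith
  have hZV3 : (ZV : ℝ) ≤ 2 * x ^ (3 / 2 * σ) := by
    have := hyx θV hθV0.le
    rw [hθVκ] at this
    linarith
  have hZV4 : (ZV : ℝ) ≤ y := by
    have g1 : y ^ θV ≤ (M : ℝ) := by
      calc y ^ θV ≤ y ^ (1 : ℝ) := Real.rpow_le_rpow_of_exponent_le hy1 hθV1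
        _ = y := Real.rpow_one _
    have g2 : ZV ≤ M := Nat.ceil_le.2 g1
    rw [hy]
    exact_mod_cast g2
  obtain ⟨c1, c2, c3⟩ := hsize (Y : ℝ) (A : ℝ) ((0 : ℕ) : ℝ) (ZV : ℝ) (Nat.cast_nonneg _) hYle hA1
    hA2 (Nat.cast_nonneg _) (by rw [Nat.cast_zero]; exact (hyp _).le) (by
      have := hyp θV
      linarith)
  set Z : ℤ := ⌊x ^ θ⌋ with hZ
  have hZ1 : (Z : ℝ) ≤ x ^ θ := Int.floor_le _
  have hZ2 : x ^ θ / 2 ≤ Z := by
    have g1 := Int.sub_one_lt_floor (x ^ θ)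
    have g2 : x ^ κ₁ ≤ x ^ θ := hxm _ _ (by linarith)
    rw [← hZ] at g1
    linarith
  set B₀ : ℕ := ⌊x ^ (θ - κ₁ - σ)⌋₊ with hB₀
  have hB1 : (B₀ : ℝ) ≤ x ^ (θ - κ₁ - σ) := Nat.floor_le (hxp _).le
  have hB2 : x ^ (θ - κ₁ - σ) < (B₀ : ℝ) + 1 := Nat.lt_floor_add_one _
  -- the target
  set S : Set ℕ := {n : ℕ | x < n ∧ (n : ℝ) ≤ x + x ^ θ ∧ (m : ℤ) ∣ n - r ∧
        (∀ i, 0 < a i * n + b i ∧ ArithmeticFunction.cardFactors (a i * n + b i).natAbs ≤ R ∧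
          ∀ p : ℕ, p.Prime → (p : ℤ) ∣ a i * n + b i → x ^ δ' < p) ∧
        ((ArithmeticFunction.cardFactors (a o * n + b o).natAbs : ℕ) : ZMod 2) = s} with hS
  have hSfin : S.Finite := by
    apply (Set.finite_Iic ⌊x + x ^ θ⌋₊).subset
    intro n hn
    exact Nat.le_floor hn.2.1
  have hxθ : x ^ θ ≤ x := by
    calc x ^ θ ≤ x ^ (1 : ℝ) := hxm _ _ hθ1
      _ = x := Real.rpow_one _
  have hrough0 : x ^ δ' ≤ y ^ δ := by
    have g1 : x ^ (κ₁ / 2) ≤ y := by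
      have k1 : x ^ (κ₁ / 2) * x ^ (κ₁ / 2) = x ^ κ₁ := by
        rw [hxa]; congr 1; ring
      have k2 := hxp (κ₁ / 2)
      nlinarith
    calc x ^ δ' = (x ^ (κ₁ / 2)) ^ δ := by
          rw [← Real.rpow_mul hx0.le, hδ']
          congr 1
          ring
      _ ≤ y ^ δ := Real.rpow_le_rpow (hxp _).le g1 hδ0.le
  have hzz : ∀ y c : ZMod 2, y ≠ c + 1 → y = c := by decide
  have hall := mem_props a b o ha m r W n₀ hmW hn₀r Y Z x θ δ' R hR hδ'0 hx6 hbd hZ1 hxθ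
    (hrough0.trans_lt (Nat.lt_floor_add_one _))
  have hsub : Ex a b o Fpar W n₀ Y Z x (s + 1) ⊆ (fun n : ℕ => (n : ℤ)) '' S := by
    intro n hn
    obtain ⟨hn0, k1, k2, k3, k4, k5⟩ := hall _ n hn
    have hnn' : ((n.toNat : ℕ) : ℤ) = n := Int.toNat_of_nonneg hn0
    have hnr : ((n.toNat : ℕ) : ℝ) = (n : ℝ) := by
      exact_mod_cast congrArg (Int.cast : ℤ → ℝ) hnn'
    refine ⟨n.toNat, ⟨?_, ?_, ?_, ?_, ?_⟩, hnn'⟩
    · rw [hnr]; exact k1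
    · rw [hnr]; exact k2
    · rw [hnn']; exact k3
    · intro i
      rw [hnn']
      exact k4 i
    · rw [hnn']
      exact hzz _ _ k5
  have hcardS : (Ex a b o Fpar W n₀ Y Z x (s + 1)).ncard ≤ S.ncard :=
    (Set.ncard_le_ncard hsub (hSfin.image _)).trans (Set.ncard_image_le hSfin)
  by_contra hcon
  push Not at hcon
  have g0 : ((Ex a b o Fpar W n₀ Y Z x (s + 1)).ncard : ℝ) ≤ x ^ (θ - 8 * σ) := by
    have k1 : ((Ex a b o Fpar W n₀ Y Z x (s + 1)).ncard : ℝ) ≤ (S.ncard : ℝ) := by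
      exact_mod_cast hcardS
    have k2 : x ^ (θ - ε) ≤ x ^ (θ - 8 * σ) := hxm _ _ (by linarith)
    linarith
  obtain ⟨hZcond, hcnt0⟩ := h2 M ZV B₀ Z ((Y : ℝ) ^ C)
    ((Ex a b o Fpar W n₀ Y Z x (s + 1)).ncard : ℝ) hM3 hM1 (Nat.cast_nonneg _) hZV3 hZV4
    (Nat.cast_nonneg _) hB1 hB2 (by positivity) hYC hZ2 (Nat.cast_nonneg _) g0
  have hcnt : 2 * (2 ^ n + 1) * (2 ^ R * (Ex a b o Fpar W n₀ Y Z x (s + 1)).ncard * ZV) <
      M * ((B₀ + 1) * (0 + 1)) := by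
    have g6 : ((2 * (2 ^ n + 1) * (2 ^ R * (Ex a b o Fpar W n₀ Y Z x (s + 1)).ncard * ZV) : ℕ) :
        ℝ) < ((M * ((B₀ + 1) * (0 + 1)) : ℕ) : ℝ) := by
      push_cast
      linarith
    exact_mod_cast g6
  obtain ⟨p, hp, hp1, hp2, hp3⟩ := hY₁ Y ((le_max_left _ _).trans hYmax)
  have hFp : Fpar p ≠ 0 := by
    unfold Fpar
    rw [Int.natAbs_natCast, ArithmeticFunction.cardFactors_apply_prime hp]
    simp
  exact hFp (dense a b o W n₀ K C hSV (by omega) hW hWp hWa Y hY2 (ha o) hn₀ Fpar add2_Fpar Z x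
    hx0.le (s + 1) R (fun n hn => by
      obtain ⟨-, -, -, -, k4, -⟩ := hall _ n hn
      exact ⟨(k4 o).1.ne', (k4 o).2.1⟩) q hqz M B₀ 0 ZV hM0 hZcond j n hn (by omega) hcnt A hA0
    (by simpa using c1) (by simpa using c2) (by simpa using c3) p hp hp1 hp2 hp3)

end Pool.Agent.W5h75.ST
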